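import Mathlib

open Filter Topology Set
open scoped Uniformity Pointwise

namespace Pool.Agent.Lib.MP_9624c8_gt

theorem baire_core {Y : Type*} [TopologicalSpace Y] [BaireSpace Y] (T : ℕ → Y ≃ₜ Y)
    (hT : ∀ y, Tendsto (fun j => T j y) atTop (𝓝 y)) (U : Set Y) (hU : IsOpen U)
    (hne : U.Nonempty) (C : ℕ → Set Y) (hC : ∀ m, BaireMeasurableSet (C m))
    (hcov : U ⊆ ⋃ m, C m) : ∃ m y, ∀ᶠ j in atTop, T j y ∈ C m := by
  have h1 : ∃ m, ¬ IsMeagre (C m) := by
    by_contra h
    push Not at h
    exact not_isMeagre_of_isOpen hU hne ((isMeagre_iUnion h).mono hcov)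
  obtain ⟨m, hm⟩ := h1
  obtain ⟨V, hV, hCV⟩ := (hC m).residualEq_isOpen
  have hR : {y | y ∈ C m ↔ y ∈ V} ∈ residual Y := by
    filter_upwards [hCV] with y hy
    exact Iff.of_eq hy
  have hVne : V.Nonempty := by
    by_contra h
    rw [not_nonempty_iff_eq_empty] at h
    apply hm
    show (C m)ᶜ ∈ residual Y
    filter_upwards [hR] with y hy
    simpa [h] using hy
  have hR2 : (⋂ j, (T j) ⁻¹' {y | y ∈ C m ↔ y ∈ V}) ∈ residual Y := by
    rw [countable_iInter_mem]
    intro j
    exact tendsto_residual_of_isOpenMap (T j).continuous (T j).isOpenMap hR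
  obtain ⟨y, hyV, hy⟩ := (dense_of_mem_residual hR2).inter_open_nonempty V hV hVne
  refine ⟨m, y, ?_⟩
  filter_upwards [hT y (hV.mem_nhds hyV)] with j hj
  exact (mem_iInter.1 hy j).2 hj

section Space

variable {G : ℕ → Type*}

structure Deep (d : ∀ n, G n → ℕ) where
  val : ∀ n, G n
  prop : Tendsto (fun n => d n (val n)) atTop atTop

def ent (d : ∀ n, G n → ℕ) (r : ℕ) : Set (Deep d × Deep d) :=
  {p | ∀ n, p.1.val n = p.2.val n ∨ (r ≤ d n (p.1.val n) ∧ r ≤ d n (p.2.val n))}

theorem ent_anti (d : ∀ n, G n → ℕ) : Antitone (ent d) := by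
  intro r s hrs p hp n
  rcases hp n with h | h
  · exact Or.inl h
  · exact Or.inr ⟨hrs.trans h.1, hrs.trans h.2⟩

theorem ent_basis (d : ∀ n, G n → ℕ) : (⨅ r, 𝓟 (ent d r)).HasBasis (fun _ => True) (ent d) :=
  hasBasis_iInf_principal (ent_anti d).directed_ge

theorem ent_trans (d : ∀ n, G n → ℕ) (r : ℕ) {a b c : Deep d} (h1 : (a, b) ∈ ent d r)
    (h2 : (b, c) ∈ ent d r) : (a, c) ∈ ent d r := by
  intro n
  rcases h1 n with h | h <;> rcases h2 n with h' | h'
  · exact Or.inl (h.trans h')
  · simp only at h h' ⊢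
    exact Or.inr ⟨h ▸ h'.1, h'.2⟩
  · simp only at h h' ⊢
    exact Or.inr ⟨h.1, h' ▸ h.2⟩
  · exact Or.inr ⟨h.1, h'.2⟩

@[instance_reducible]
def unif (d : ∀ n, G n → ℕ) : UniformSpace (Deep d) :=
  UniformSpace.ofCore <| UniformSpace.Core.mk' (⨅ r, 𝓟 (ent d r))
    (fun s hs x => by
      obtain ⟨r, -, hr⟩ := (ent_basis d).mem_iff.1 hs
      exact hr fun n => Or.inl rfl)
    (fun s hs => by
      obtain ⟨r, -, hr⟩ := (ent_basis d).mem_iff.1 hs
      refine (ent_basis d).mem_iff.2 ⟨r, trivial, fun p hp => hr fun n => ?_⟩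
      rcases hp n with h | h
      · exact Or.inl h.symm
      · exact Or.inr h.symm)
    (fun s hs => by
      obtain ⟨r, -, hr⟩ := (ent_basis d).mem_iff.1 hs
      refine ⟨ent d r, (ent_basis d).mem_of_mem trivial, ?_⟩
      rintro ⟨a, c⟩ ⟨b, h1, h2⟩
      exact hr (ent_trans d r h1 h2))

theorem unif_basis (d : ∀ n, G n → ℕ) :
    (@uniformity _ (unif d)).HasBasis (fun _ => True) (ent d) := ent_basis d

theorem unif_complete (d : ∀ n, G n → ℕ) (hd : ∀ n a, d n a ≤ n + 1) :
    @CompleteSpace _ (unif d) := by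
  let := unif d
  have hb := unif_basis d
  have : (𝓤 (Deep d)).IsCountablyGenerated := hb.isCountablyGenerated
  refine UniformSpace.complete_of_cauchySeq_tendsto fun u hu => ?_
  rw [hb.cauchySeq_iff] at hu
  choose N hN using fun r => hu r trivial
  have key : ∀ n i, N (n + 2) ≤ i → (u i).val n = (u (N (n + 2))).val n := by
    intro n i hi
    rcases hN (n + 2) i hi _ le_rfl n with h | h
    · exact h
    · have := hd n ((u i).val n)
      have := h.1
      simp only at this
      omega
  set y : ∀ n, G n := fun n => (u (N (n + 2))).val n with hy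
  have close : ∀ r i, N r ≤ i → ∀ n, (u i).val n = y n ∨ (r ≤ d n ((u i).val n) ∧ r ≤ d n (y n)) := by
    intro r i hi n
    have h1 := hN r i hi (max (N r) (N (n + 2))) (le_max_left _ _) n
    simp only at h1
    rw [key n _ (le_max_right _ _)] at h1
    exact h1
  have hyp : Tendsto (fun n => d n (y n)) atTop atTop := by
    rw [tendsto_atTop]
    intro r
    filter_upwards [(tendsto_atTop.1 (u (N r)).prop) r] with n hn
    rcases close r _ le_rfl n with h | h
    · rw [← h]; exact hn
    · exact h.2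
  refine ⟨⟨y, hyp⟩, ?_⟩
  rw [(nhds_basis_uniformity hb).tendsto_right_iff]
  intro r _
  filter_upwards [eventually_ge_atTop (N r)] with i hi
  exact close r i hi

end Space

section Grp

variable {G : ℕ → Type*} [∀ n, Group (G n)]

def shift (d : ∀ n, G n → ℕ) (z : ∀ n, G n) (hz : ∀ n a, d n a ≤ d n (a * z n) + 1)
    (y : Deep d) : Deep d :=
  ⟨fun n => y.val n * z n, by
    rw [tendsto_atTop]
    intro r
    filter_upwards [(tendsto_atTop.1 y.prop) (r + 1)] with n hn
    have := hz n (y.val n)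
    omega⟩

theorem shift_cont (d : ∀ n, G n → ℕ) (z : ∀ n, G n) (hz : ∀ n a, d n a ≤ d n (a * z n) + 1) :
    @Continuous _ _ (unif d).toTopologicalSpace (unif d).toTopologicalSpace (shift d z hz) := by
  let := unif d
  have hb := unif_basis d
  refine UniformContinuous.continuous ?_
  rw [hb.uniformContinuous_iff hb]
  intro r _
  refine ⟨r + 1, trivial, fun a b hab n => ?_⟩
  rcases hab n with h | h
  · left
    simp only [shift] at h ⊢
    rw [h]
  · right
    simp only [shift] at h ⊢
    have := hz n (a.val n)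
    have := hz n (b.val n)
    omega

theorem core_depth [∀ n, TopologicalSpace (G n)] [∀ n, DiscreteTopology (G n)]
    (d : ∀ n, G n → ℕ) (hd0 : ∀ n a, d n a = 0 ↔ a = 1) (hd : ∀ n a, d n a ≤ n + 1)
    (z : ℕ → ∀ n, G n) (hz : ∀ j n a, d n a ≤ d n (a * z j n) + 1)
    (hz' : ∀ j n a, d n a ≤ d n (a * (z j n)⁻¹) + 1)
    (hz1 : ∀ n, ∀ᶠ j in atTop, z j n = 1)
    (y0 : ∀ n, G n) (hy0 : ∀ n, y0 n ≠ 1) (hy0' : Tendsto (fun n => d n (y0 n)) atTop atTop)
    (B : ℕ → Set (∀ n, G n)) (hB : ∀ m, @MeasurableSet _ (borel (∀ n, G n)) (B m))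
    (hcov : {x | ∀ n, x n ≠ 1} ⊆ ⋃ m, B m) :
    ∃ m y, ∀ᶠ j in atTop, y * z j ∈ B m := by
  let := unif d
  have hb := unif_basis d
  have : (𝓤 (Deep d)).IsCountablyGenerated := hb.isCountablyGenerated
  have := unif_complete d hd
  let T : ℕ → Deep d ≃ₜ Deep d := fun j =>
    { toFun := shift d (z j) (hz j)
      invFun := shift d (fun n => (z j n)⁻¹) (hz' j)
      left_inv := fun y => by simp [shift]
      right_inv := fun y => by simp [shift]
      continuous_toFun := shift_cont d _ _
      continuous_invFun := shift_cont d _ _ }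
  have hval : Continuous (fun y : Deep d => y.val) := by
    refine continuous_pi fun n => ?_
    refine continuous_iff_continuousAt.2 fun y => ?_
    refine tendsto_nhds_of_eventually_eq ?_
    filter_upwards [(nhds_basis_uniformity hb).mem_of_mem (i := n + 2) trivial] with a ha
    rcases ha n with h | h
    · exact h
    · have := hd n (a.val n)
      have := h.1
      simp only at this
      omega
  have hT : ∀ y, Tendsto (fun j => T j y) atTop (𝓝 y) := by
    intro y
    rw [(nhds_basis_uniformity hb).tendsto_right_iff]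
    intro r _
    obtain ⟨M, hM⟩ := eventually_atTop.1 ((tendsto_atTop.1 y.prop) (r + 1))
    have h1 : ∀ᶠ j in atTop, ∀ n ∈ Finset.range M, z j n = 1 :=
      (eventually_all_finset _).2 fun n _ => hz1 n
    filter_upwards [h1] with j hj n
    by_cases hn : n < M
    · left
      show y.val n * z j n = y.val n
      rw [hj n (Finset.mem_range.2 hn), mul_one]
    · right
      have h2 := hM n (by omega)
      have h3 := hz j n (y.val n)
      show r ≤ d n (y.val n * z j n) ∧ r ≤ d n (y.val n)
      omega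
  have hU : IsOpen {y : Deep d | ∀ n, y.val n ≠ 1} := by
    rw [isOpen_iff_mem_nhds]
    intro y hy
    filter_upwards [(nhds_basis_uniformity hb).mem_of_mem (i := 1) trivial] with a ha n
    rcases ha n with h | h
    · simp only at h
      rw [h]; exact hy n
    · intro h1
      have h2 := (hd0 n _).2 h1
      have := h.1
      simp only at this
      omega
  obtain ⟨m, y, hy⟩ := baire_core T hT _ hU ⟨⟨y0, hy0'⟩, hy0⟩
    (fun m => (fun y : Deep d => y.val) ⁻¹' B m)
    (fun m => by
      borelize (Deep d)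
      let : MeasurableSpace (∀ n, G n) := borel _
      have : BorelSpace (∀ n, G n) := ⟨rfl⟩
      exact (hval.measurable (hB m)).baireMeasurableSet)
    (fun y hy => by
      obtain ⟨m, hm⟩ := mem_iUnion.1 (hcov hy)
      exact mem_iUnion.2 ⟨m, hm⟩)
  exact ⟨m, y.val, hy⟩

open Classical in
noncomputable def depth (F : ∀ n, Finset (G n)) (n : ℕ) (a : G n) : ℕ :=
  Nat.find (⟨n + 1, Or.inr le_rfl⟩ : ∃ r, a ∈ F n ^ r ∨ n + 1 ≤ r)

open Classical in
theorem depth_le (F : ∀ n, Finset (G n)) (n : ℕ) (a : G n) : depth F n a ≤ n + 1 :=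
  Nat.find_min' _ (Or.inr le_rfl)

open Classical in
theorem depth_zero (F : ∀ n, Finset (G n)) (n : ℕ) (a : G n) : depth F n a = 0 ↔ a = 1 := by
  unfold depth
  rw [Nat.find_eq_zero]
  simp

open Classical in
theorem depth_mul (F : ∀ n, Finset (G n)) (n : ℕ) (a f : G n) (hf : f ∈ F n) :
    depth F n (a * f) ≤ depth F n a + 1 := by
  apply Nat.find_min'
  rcases Nat.find_spec (⟨n + 1, Or.inr le_rfl⟩ : ∃ r, a ∈ F n ^ r ∨ n + 1 ≤ r) with h | h
  · left
    rw [pow_succ]
    exact Finset.mul_mem_mul h hf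
  · right
    exact h.trans (Nat.le_succ _)

open Classical in
theorem lt_depth (F : ∀ n, Finset (G n)) (n : ℕ) (h1 : (1 : G n) ∈ F n) (a : G n) (r : ℕ)
    (hr : r ≤ n) (ha : a ∉ F n ^ r) : r < depth F n a := by
  unfold depth
  rw [Nat.lt_find_iff]
  intro s hs h
  rcases h with h | h
  · exact ha (Finset.pow_subset_pow_right h1 hs h)
  · omega

theorem main [∀ n, Finite (G n)] [∀ n, Nontrivial (G n)]
    [∀ n, TopologicalSpace (G n)] [∀ n, DiscreteTopology (G n)]
    (hcard : Tendsto (fun n => Nat.card (G n)) atTop atTop)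
    (B : ℕ → Set (∀ n, G n)) (hB : ∀ m, @MeasurableSet _ (borel (∀ n, G n)) (B m))
    (x : ℕ → ℕ → ∀ n, G n) (hx : ∀ m, Tendsto (x m) atTop (𝓝 1))
    (hfin : ∀ m y, {k | y * x m k ∈ B m}.Finite) :
    ¬ ({y | ∀ n, y n ≠ 1} ⊆ ⋃ m, B m) := by
  classical
  intro hcov
  have hx1 : ∀ m n, ∀ᶠ k in atTop, x m k n = 1 := by
    intro m n
    have h := (continuous_apply n).continuousAt.tendsto.comp (hx m)
    rw [nhds_discrete] at h
    exact tendsto_pure.1 h
  have hN : ∀ j, ∃ N, j + 1 ≤ N ∧ ∀ n, N ≤ n → (2 * (j + 1) + 1) ^ (j + 1) < Nat.card (G n) := by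
    intro j
    obtain ⟨N, hN⟩ := eventually_atTop.1 (hcard.eventually_gt_atTop ((2 * (j + 1) + 1) ^ (j + 1)))
    exact ⟨max N (j + 1), le_max_right _ _, fun n hn => hN n ((le_max_left _ _).trans hn)⟩
  choose N hN1 hN2 using hN
  have hk : ∀ j, ∃ k, j ≤ k ∧ ∀ n ∈ Finset.range (N j), x (Nat.unpair j).1 k n = 1 := by
    intro j
    have h1 : ∀ᶠ k in atTop, ∀ n ∈ Finset.range (N j), x (Nat.unpair j).1 k n = 1 :=
      (eventually_all_finset _).2 fun n _ => hx1 _ n
    exact ((eventually_ge_atTop j).and h1).exists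
  choose k hk1 hk2 using hk
  set z : ℕ → ∀ n, G n := fun j => x (Nat.unpair j).1 (k j) with hzdef
  let J : ℕ → Finset ℕ := fun n => (Finset.range n).filter fun j => N j ≤ n
  let F : ∀ n, Finset (G n) := fun n =>
    insert 1 ((J n).image (fun j => z j n) ∪ (J n).image (fun j => (z j n)⁻¹))
  have hF1 : ∀ n, (1 : G n) ∈ F n := fun n => Finset.mem_insert_self _ _
  have hzF : ∀ j n, z j n ∈ F n ∧ (z j n)⁻¹ ∈ F n := by
    intro j n
    by_cases h : N j ≤ n
    · have hj : j ∈ J n := Finset.mem_filter.2 ⟨Finset.mem_range.2 (by have := hN1 j; omega), h⟩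
      exact ⟨Finset.mem_insert_of_mem (Finset.mem_union_left _ (Finset.mem_image_of_mem _ hj)),
        Finset.mem_insert_of_mem (Finset.mem_union_right _ (Finset.mem_image_of_mem _ hj))⟩
    · have h1 : z j n = 1 := hk2 j n (Finset.mem_range.2 (by omega))
      rw [h1, inv_one]
      exact ⟨hF1 n, hF1 n⟩
  have hy : ∀ n, ∃ a : G n, a ≠ 1 ∧ ∀ j, N j ≤ n → j < depth F n a := by
    intro n
    by_cases hJ : (J n).Nonempty
    · set i := (J n).max' hJ with hi
      have hiJ : i ∈ J n := Finset.max'_mem _ _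
      have hi2 := Finset.mem_filter.1 hiJ
      have hcJ : (J n).card ≤ i + 1 := by
        have : J n ⊆ Finset.range (i + 1) := fun j hj =>
          Finset.mem_range.2 (Nat.lt_succ_of_le (Finset.le_max' _ _ hj))
        simpa using Finset.card_le_card this
      have hcF : (F n).card ≤ 2 * (i + 1) + 1 := by
        refine (Finset.card_insert_le _ _).trans ?_
        have h1 := Finset.card_union_le ((J n).image (fun j => z j n))
          ((J n).image (fun j => (z j n)⁻¹))
        have h2 := Finset.card_image_le (s := J n) (f := fun j => z j n)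
        have h3 := Finset.card_image_le (s := J n) (f := fun j => (z j n)⁻¹)
        omega
      have hc : (F n ^ (i + 1)).card < Nat.card (G n) :=
        lt_of_le_of_lt (Finset.card_pow_le.trans (Nat.pow_le_pow_left hcF _)) (hN2 i n hi2.2)
      have := Fintype.ofFinite (G n)
      have hex : ∃ a, a ∉ F n ^ (i + 1) := by
        by_contra h
        push Not at h
        have : F n ^ (i + 1) = Finset.univ := Finset.eq_univ_of_forall h
        rw [this, Finset.card_univ, Nat.card_eq_fintype_card] at hc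
        exact lt_irrefl _ hc
      obtain ⟨a, ha⟩ := hex
      have hlt := lt_depth F n (hF1 n) a (i + 1) (Finset.mem_range.1 hi2.1) ha
      refine ⟨a, fun h => ?_, fun j hj => ?_⟩
      · have := (depth_zero F n a).2 h
        omega
      · have hjJ : j ∈ J n :=
          Finset.mem_filter.2 ⟨Finset.mem_range.2 (by have := hN1 j; omega), hj⟩
        have := Finset.le_max' _ _ hjJ
        omega
    · obtain ⟨a, ha⟩ := exists_ne (1 : G n)
      refine ⟨a, ha, fun j hj => ?_⟩
      exact absurd ⟨j, Finset.mem_filter.2 ⟨Finset.mem_range.2 (by have := hN1 j; omega), hj⟩⟩ hJ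
  choose y0 hy0 hy0' using hy
  obtain ⟨m, y, hmy⟩ := core_depth (depth F) (depth_zero F) (depth_le F) z
    (fun j n a => by simpa using depth_mul F n (a * z j n) _ (hzF j n).2)
    (fun j n a => by simpa using depth_mul F n (a * (z j n)⁻¹) _ (hzF j n).1)
    (fun n => by
      filter_upwards [eventually_ge_atTop n] with j hj
      exact hk2 j n (Finset.mem_range.2 (by have := hN1 j; omega)))
    y0 hy0
    (by
      rw [tendsto_atTop]
      intro r
      filter_upwards [eventually_ge_atTop (N r)] with n hn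
      exact (hy0' n r hn).le)
    B hB hcov
  obtain ⟨J0, hJ0⟩ := eventually_atTop.1 hmy
  obtain ⟨M, hM⟩ := (hfin m y).bddAbove
  have h1 : max J0 (M + 1) ≤ Nat.pair m (max J0 (M + 1)) := Nat.right_le_pair _ _
  have h2 := hJ0 _ ((le_max_left _ _).trans h1)
  simp only [hzdef, Nat.unpair_pair] at h2
  have h3 := hM h2
  have h4 := hk1 (Nat.pair m (max J0 (M + 1)))
  have h5 := le_max_right J0 (M + 1)
  omega

end Grp

end Pool.Agent.Lib.MP_9624c8_gt
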